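import Pool.Agent.helper13.BN.Stmt
import Pool.Agent.helper22.BN.AxSp
import Pool.Agent.helper58.BN.Solve
import Pool.Agent.helper68.BN.BubInt2
import Pool.Agent.helper69.BN.HilLin
import Pool.Agent.helper69.BN.HilSA
import Pool.Agent.helper41.BN.Pw
import Pool.Agent.helper3.BN.Kop
import Pool.Agent.helper11.BN.Proj
import Pool.Agent.helper40.BN.Gap2
import Pool.Agent.helper74.BN.Sup
import Pool.Agent.helper29.BN.ProjSmallB

set_option autoImplicit false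

/-!
# MP_94a57f_an, module D5: the linear theory at `v_n + β W`
-/

open MeasureTheory Filter Topology Set Metric
open scoped ContDiff Gradient RealInnerProductSpace ENNReal

noncomputable section
namespace Pool.Agent.helper13.BN
variable {N : ℕ}

namespace LV90

theorem complete_XS (e : E N) (ρ : ℝ) : CompleteSpace (XS e ρ) :=
  (Submodule.isClosed_topologicalClosure _).completeSpace_coe

theorem annO (ρ : ℝ) : IsOpen (ann N ρ) :=
  (isOpen_lt continuous_const continuous_norm).inter (isOpen_lt continuous_norm continuous_const)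

theorem annM (ρ : ℝ) : MeasurableSet (ann N ρ) := (annO ρ).measurableSet

theorem annB (ρ : ℝ) : ann N ρ ⊆ ball 0 1 := fun x hx => by simpa using hx.2

theorem annFin (ρ : ℝ) : volume (ann N ρ) < ⊤ :=
  lt_of_le_of_lt (measure_mono (annB ρ)) measure_ball_lt_top

theorem aeR {p : E N → Prop} {ρ : ℝ} (h : ∀ᵐ x, x ∈ ann N ρ → p x) :
    ∀ᵐ x ∂(volume.restrict (ann N ρ)), p x := (ae_restrict_iff' (annM ρ)).2 h

theorem aeR' {p : E N → Prop} {Ω : Set (E N)} (h : ∀ᵐ x, p x) :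
    ∀ᵐ x ∂(volume.restrict Ω), p x := ae_restrict_of_ae h

theorem nq_le_mul {q : ℝ} {Ω : Set (E N)} {f g : E N → ℝ} {c : ℝ} (hc : 0 ≤ c)
    (hf : AEStronglyMeasurable f (volume.restrict Ω)) (hg : Mq q Ω g)
    (h : ∀ᵐ x ∂(volume.restrict Ω), |f x| ≤ c * |g x|) :
    Mq q Ω f ∧ nq q Ω f ≤ c * nq q Ω g := by
  have h1 : MemLp (fun x => c * g x) (ENNReal.ofReal q) (volume.restrict Ω) := hg.const_mul c
  have h2 : ∀ᵐ x ∂(volume.restrict Ω), ‖f x‖ ≤ ‖c * g x‖ := by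
    filter_upwards [h] with x hx
    rw [Real.norm_eq_abs, norm_mul, Real.norm_of_nonneg hc]
    exact hx
  refine ⟨h1.mono hf h2, ?_⟩
  have h3 := eLpNorm_mono_ae (p := ENNReal.ofReal q) h2
  have h4 : eLpNorm (fun x => c * g x) (ENNReal.ofReal q) (volume.restrict Ω)
      = ‖c‖ₑ * eLpNorm g (ENNReal.ofReal q) (volume.restrict Ω) :=
    eLpNorm_const_smul c g (ENNReal.ofReal q) (volume.restrict Ω)
  unfold nq
  calc (eLpNorm f (ENNReal.ofReal q) (volume.restrict Ω)).toReal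
      ≤ (‖c‖ₑ * eLpNorm g (ENNReal.ofReal q) (volume.restrict Ω)).toReal := by
        rw [← h4]
        exact ENNReal.toReal_mono h1.2.ne h3
    _ = c * (eLpNorm g (ENNReal.ofReal q) (volume.restrict Ω)).toReal := by
        rw [ENNReal.toReal_mul, toReal_enorm, Real.norm_of_nonneg hc]

theorem nq_nonneg (q : ℝ) (Ω : Set (E N)) (f : E N → ℝ) : 0 ≤ nq q Ω f := ENNReal.toReal_nonneg

theorem nq_add {q : ℝ} (hq : 1 ≤ q) {Ω : Set (E N)} {f g : E N → ℝ} (hf : Mq q Ω f)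
    (hg : Mq q Ω g) :
    Mq q Ω (fun x => f x + g x) ∧ nq q Ω (fun x => f x + g x) ≤ nq q Ω f + nq q Ω g := by
  refine ⟨hf.add hg, ?_⟩
  unfold nq
  rw [← ENNReal.toReal_add hf.2.ne hg.2.ne]
  refine ENNReal.toReal_mono (ENNReal.add_ne_top.2 ⟨hf.2.ne, hg.2.ne⟩) ?_
  refine eLpNorm_add_le hf.1 hg.1 ?_
  rw [← ENNReal.ofReal_one]
  exact ENNReal.ofReal_le_ofReal hq

theorem nq_bdd (N : ℕ) (ρ q : ℝ) : ∃ C : ℝ, 0 < C ∧ ∀ (f : E N → ℝ) (B : ℝ), 0 ≤ B →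
    AEStronglyMeasurable f (volume.restrict (ann N ρ)) →
    (∀ᵐ x ∂(volume.restrict (ann N ρ)), |f x| ≤ B) →
    Mq q (ann N ρ) f ∧ nq q (ann N ρ) f ≤ C * B := by
  have : IsFiniteMeasure (volume.restrict (ann N ρ)) := ⟨by
    rw [Measure.restrict_apply_univ]; exact annFin ρ⟩
  have h1 : Mq q (ann N ρ) (fun _ => (1 : ℝ)) := memLp_const 1
  refine ⟨nq q (ann N ρ) (fun _ => (1 : ℝ)) + 1, by
    have := nq_nonneg q (ann N ρ) (fun _ => (1 : ℝ)); linarith, fun f B hB hf h => ?_⟩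
  have h2 := nq_le_mul (q := q) hB hf h1 (by
    filter_upwards [h] with x hx; simpa using hx)
  refine ⟨h2.1, h2.2.trans ?_⟩
  nlinarith [nq_nonneg q (ann N ρ) (fun _ => (1 : ℝ))]

/-! ### axial functions -/

theorem axial_ind {e : E N} {ρ : ℝ} {h : E N → ℝ} (hh : Axial e h) :
    Axial e ((ann N ρ).indicator h) := by
  obtain ⟨k, hk, hx⟩ := hh
  have hm : MeasurableSet {p : ℝ × ℝ | ρ < p.1 ∧ p.1 < 1} :=
    (measurableSet_lt measurable_const measurable_fst).inter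
      (measurableSet_lt measurable_fst measurable_const)
  refine ⟨{p : ℝ × ℝ | ρ < p.1 ∧ p.1 < 1}.indicator k, hk.indicator hm, ?_⟩
  filter_upwards [hx] with x h1
  by_cases hm : x ∈ ann N ρ
  · rw [indicator_of_mem hm, indicator_of_mem (show (‖x‖, ⟪x, e⟫) ∈ {p : ℝ × ℝ | ρ < p.1 ∧ p.1 < 1}
      from hm), h1]
  · rw [indicator_of_notMem hm,
      indicator_of_notMem (show (‖x‖, ⟪x, e⟫) ∉ {p : ℝ × ℝ | ρ < p.1 ∧ p.1 < 1} from hm)]

theorem axial_dnl (hN : 3 ≤ N) (hN5 : N ≤ 5) {e : E N} {h : E N → ℝ} (hh : Axial e h) (c : ℝ) :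
    Axial e (fun x => c + dnl N (h x)) :=
  axial_comp hh hh (k := fun p => c + dnl N p.1)
    (((continuous_dnl hN hN5).measurable.comp measurable_fst).const_add c)

theorem norm_sub_sq_axis {e : E N} (he : ‖e‖ = 1) (s : ℝ) (x : E N) :
    ‖x - s • e‖ ^ 2 = ‖x‖ ^ 2 - 2 * (s * ⟪x, e⟫) + s ^ 2 := by
  rw [norm_sub_sq_real, norm_smul, he, real_inner_smul_right]
  simp [Real.norm_eq_abs, sq_abs]

theorem axial_bub {e : E N} (he : ‖e‖ = 1) (μ s : ℝ) : Axial e (bub N μ (s • e)) := by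
  refine ⟨fun p => alN N * μ ^ cc N * (μ ^ 2 + (p.1 ^ 2 - 2 * (s * p.2) + s ^ 2)) ^ (-cc N),
    ?_, Eventually.of_forall fun x => ?_⟩
  · exact ((Measurable.pow_const (by fun_prop) _).const_mul _)
  · unfold bub
    rw [norm_sub_sq_axis he]

theorem axial_ab (hN : 3 ≤ N) (hN5 : N ≤ 5) {e : E N} {ρ : ℝ} {w : LV N} (hw : w ∈ XS e ρ)
    (c : ℝ) : Axial e ((ann N ρ).indicator (fun x => c + dnl N (fn w x))) :=
  axial_ind (axial_dnl hN hN5 ((mem_XS hN).1 hw).2 c)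

theorem axial_dbub (hN : 3 ≤ N) (hN5 : N ≤ 5) {e : E N} (he : ‖e‖ = 1) (ρ μ d : ℝ) :
    Axial e ((ann N ρ).indicator (fun x => dnl N (bub N μ (cen e d) x))) := by
  have h := axial_dnl hN hN5 (axial_bub he μ (1 - d)) 0
  simp only [zero_add] at h
  exact axial_ind h

theorem XS_DD (hN : 3 ≤ N) {e : E N} {ρ : ℝ} {w : LV N} (hw : w ∈ XS e ρ) :
    w ∈ DD (ann N ρ) := ((mem_XS hN).1 hw).1

theorem XS_univ (hN : 3 ≤ N) {e : E N} {ρ : ℝ} {w : LV N} (hw : w ∈ XS e ρ) :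
    w ∈ DD (univ : Set (E N)) := DD_mono (subset_univ _) (XS_DD hN hw)

theorem XS_ball (hN : 3 ≤ N) {e : E N} {ρ : ℝ} {w : LV N} (hw : w ∈ XS e ρ) :
    w ∈ DD (ball (0 : E N) 1) := DD_mono (annB ρ) (XS_DD hN hw)

/-! ### bounds for the family -/

theorem v_bd {η : ℝ} (F : Fam N η) (n : ℕ) : ∀ᵐ x, |fn (F.v n) x| ≤ F.K := by
  obtain ⟨_, h0, h1⟩ := F.rep n
  filter_upwards [h1] with x hx
  rw [hx]
  by_cases hm : x ∈ ann N F.ρ
  · have h2 := F.V_le n x hm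
    have h3 := norm_nonneg x
    have h4 := F.hK
    nlinarith [hm.2]
  · rw [h0 x hm]
    simpa using F.hK.le

theorem vb_bd (hN : 3 ≤ N) {η : ℝ} (F : Fam N η) : ∀ᵐ x, |fn F.vb x| ≤ F.K := by
  have h1 := fn_tendsto_eLpNorm hN (fun n => XS_univ hN (F.v_mem n)) F.v_lim
  have h2 : TendstoInMeasure volume (fun n => fn (F.v n)) atTop (fn F.vb) :=
    tendstoInMeasure_of_tendsto_eLpNorm (ts_ne_zero hN) (fun n => fn_meas _) (fn_meas _) h1
  obtain ⟨ns, _, h3⟩ := h2.exists_seq_tendsto_ae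
  filter_upwards [h3, ae_all_iff.2 (fun n => v_bd F (ns n))] with x hx hb
  exact le_of_tendsto hx.abs (Eventually.of_forall hb)

theorem dnl_bd (hN : 3 ≤ N) {u K : ℝ} (_hK : 0 ≤ K) (h : |u| ≤ K) :
    |dnl N u| ≤ (pm N + 1) * K ^ pm N := by
  have h1 : 0 < pm N := BI.pm_pos hN
  unfold dnl
  rw [abs_mul, abs_of_pos (by linarith), abs_of_nonneg (Real.rpow_nonneg (abs_nonneg _) _)]
  gcongr

theorem exists_B (hN : 3 ≤ N) {η : ℝ} (F : Fam N η) : ∃ B : ℝ, 0 < B ∧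
    (∀ n, ∀ᵐ x, |F.lam n + dnl N (fn (F.v n) x)| ≤ B) ∧
    (∀ᵐ x, |F.lamb + dnl N (fn F.vb x)| ≤ B) := by
  obtain ⟨L, hL⟩ : ∃ L, ∀ n, |F.lam n| ≤ L := by
    obtain ⟨L, hL⟩ := (Metric.isBounded_range_of_tendsto _ F.lam_lim).exists_norm_le
    exact ⟨L, fun n => hL _ ⟨n, rfl⟩⟩
  have h1 : 0 < pm N := BI.pm_pos hN
  have h2 : 0 ≤ (pm N + 1) * F.K ^ pm N := by
    have := Real.rpow_nonneg F.hK.le (pm N)
    positivity
  have h3 : 0 ≤ L := (abs_nonneg _).trans (hL 0)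
  refine ⟨L + |F.lamb| + (pm N + 1) * F.K ^ pm N + 1, by positivity, fun n => ?_, ?_⟩
  · filter_upwards [v_bd F n] with x hx
    have h4 := dnl_bd hN F.hK.le hx
    have h5 := abs_add_le (F.lam n) (dnl N (fn (F.v n) x))
    have h6 := hL n
    have h7 := abs_nonneg F.lamb
    linarith
  · filter_upwards [vb_bd hN F] with x hx
    have h4 := dnl_bd hN F.hK.le hx
    have h5 := abs_add_le F.lamb (dnl N (fn F.vb x))
    linarith

theorem meas_ab (hN : 3 ≤ N) (hN5 : N ≤ 5) (w : LV N) (c : ℝ) (Ω : Set (E N)) :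
    AEStronglyMeasurable (fun x => c + dnl N (fn w x)) (volume.restrict Ω) :=
  aestronglyMeasurable_const.add
    ((continuous_dnl hN hN5).comp_aestronglyMeasurable (fn_meas w).restrict)

theorem meas_dbub (hN : 3 ≤ N) (hN5 : N ≤ 5) {μ : ℝ} (hμ : 0 < μ) (ξ : E N) (Ω : Set (E N)) :
    AEStronglyMeasurable (fun x => dnl N (bub N μ ξ x)) (volume.restrict Ω) :=
  ((continuous_dnl hN hN5).comp (BI.bub_cont hN hμ ξ)).aestronglyMeasurable

/-- Lemma B: uniform nondegeneracy of `v n` -/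
theorem nondeg_unif (hN : 3 ≤ N) (hN5 : N ≤ 5) {η : ℝ} (F : Fam N η) :
    ∃ m₀ : ℝ, ∃ n₀ : ℕ, 0 < m₀ ∧ ∀ n, n₀ ≤ n → ∀ x : XS F.e F.ρ,
      m₀ * ‖x‖ ≤ ‖x - Kop F.e F.ρ (fun x => F.lam n + dnl N (fn (F.v n) x)) x‖ := by
  have := complete_XS F.e F.ρ
  obtain ⟨B, hB, hBn, hBb⟩ := exists_B hN F
  obtain ⟨Cv, hCv, hCv1⟩ := nq_bdd N F.ρ (N / 2)
  have hq1 : (1 : ℝ) ≤ (N : ℝ) / 2 := by
    have : (3 : ℝ) ≤ N := by exact_mod_cast hN
    linarith
  have hq2 : (N : ℝ) / 2 ≤ ts N := by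
    have h3 : (3 : ℝ) ≤ N := by exact_mod_cast hN
    have h5 : (N : ℝ) ≤ 5 := by exact_mod_cast hN5
    unfold ts
    rw [div_le_div_iff₀ (by norm_num) (by linarith)]
    nlinarith
  obtain ⟨S, hS, hS1⟩ := exists_sob_q hN 1 hq1 hq2
  obtain ⟨C, hC, hC1⟩ := dnl_lip hN hN5
  have hK := F.hK
  set ab : E N → ℝ := fun x => F.lamb + dnl N (fn F.vb x) with hab
  have hMb := hCv1 ab B hB.le (meas_ab hN hN5 _ _ _) (aeR' hBb)
  have hAb : Axial F.e ((ann N F.ρ).indicator ab) := axial_ab hN hN5 F.vb_mem _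
  have hcomp : IsCompactOperator (Kop F.e F.ρ ab) :=
    Kop_compact hN F.hρ F.hρ1 F.he (meas_ab hN hN5 _ _ _) (hBb.mono fun x hx _ => hx) hAb
  obtain ⟨m₁, hm₁, hm₁'⟩ := bddBelow_of_compact hcomp (fun x hx => by
    have h1 := Kop_apply hN F.hρ F.hρ1 F.he hMb.1 hAb x
    rw [hx] at h1
    have h2 : Mq (td N) (ann N F.ρ) (fun y => ab y * fn (x : LV N) y) :=
      (holder_pot hN hMb.1 (Mq_univ58 _ (sobolev hN (XS_univ hN x.2)).1)).1
    have h3 := (weak_iff_T hN (annM F.ρ) h2).2 h1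
    have h4 := F.nondeg x x.2 (by
      convert h3 using 2
      rw [hab]; ring)
    exact Subtype.ext h4)
  -- the difference tends to zero
  have hlim : Tendsto (fun n => SS N ^ 2 * (Cv * |F.lam n - F.lamb|
      + C * (F.K ^ (pm N - 1) + F.K ^ (pm N - 1)) * (S * ‖F.v n - F.vb‖))) atTop (𝓝 0) := by
    have e1 : Tendsto (fun n => |F.lam n - F.lamb|) atTop (𝓝 0) := by
      have := (F.lam_lim.sub_const F.lamb).abs
      simpa using this
    have e2 : Tendsto (fun n => ‖F.v n - F.vb‖) atTop (𝓝 0) :=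
      tendsto_iff_norm_sub_tendsto_zero.1 F.v_lim
    have e3 := ((e1.const_mul Cv).add
      ((e2.const_mul S).const_mul (C * (F.K ^ (pm N - 1) + F.K ^ (pm N - 1))))).const_mul
      (SS N ^ 2)
    simpa using e3
  have hev := hlim.eventually (gt_mem_nhds (show (0 : ℝ) < m₁ / 2 by positivity))
  obtain ⟨n₀, hn₀⟩ := eventually_atTop.1 hev
  refine ⟨m₁ / 2, n₀, by positivity, fun n hn x => ?_⟩
  set an : E N → ℝ := fun x => F.lam n + dnl N (fn (F.v n) x) with han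
  have hMn := hCv1 an B hB.le (meas_ab hN hN5 _ _ _) (aeR' (hBn n))
  have hAn : Axial F.e ((ann N F.ρ).indicator an) := axial_ab hN hN5 (F.v_mem n) _
  have hd1 : Kop F.e F.ρ (fun x => an x - ab x) = Kop F.e F.ρ an - Kop F.e F.ρ ab :=
    Kop_sub hN F.hρ F.hρ1 F.he hMn.1 hAn hMb.1 hAb
  have hAd : Axial F.e ((ann N F.ρ).indicator (fun x => an x - ab x)) := by
    have h := axial_comp hAn hAb (k := fun p => p.1 - p.2) (measurable_fst.sub measurable_snd)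
    rw [← indicator_sub] at h
    exact h
  have hMd : Mq (N / 2) (ann N F.ρ) (fun x => an x - ab x) := hMn.1.sub hMb.1
  have hd2 := Kop_norm hN F.hρ F.hρ1 F.he hMd hAd
  have hvn := XS_univ hN (F.v_mem n)
  have hvb := XS_univ hN F.vb_mem
  have hdw : F.v n - F.vb ∈ XS F.e F.ρ := Submodule.sub_mem _ (F.v_mem n) F.vb_mem
  have hd3 : nq (N / 2) (ann N F.ρ) (fun x => an x - ab x) ≤ Cv * |F.lam n - F.lamb|
      + C * (F.K ^ (pm N - 1) + F.K ^ (pm N - 1)) * (S * ‖F.v n - F.vb‖) := by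
    have hS2 := hS1 _ (XS_ball hN hdw)
    have hpm1 : 0 ≤ pm N - 1 := by
      unfold pm
      have h3 : (3 : ℝ) ≤ N := by exact_mod_cast hN
      have h5 : (N : ℝ) ≤ 5 := by exact_mod_cast hN5
      rw [sub_nonneg, le_div_iff₀ (by linarith)]
      linarith
    have hKp : 0 ≤ F.K ^ (pm N - 1) := Real.rpow_nonneg hK.le _
    have f1 := hCv1 (fun _ => F.lam n - F.lamb) |F.lam n - F.lamb| (abs_nonneg _)
      aestronglyMeasurable_const (Eventually.of_forall fun _ => le_rfl)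
    have f2 := nq_le_mul (q := (N : ℝ) / 2) (Ω := ann N F.ρ)
      (f := fun x => dnl N (fn (F.v n) x) - dnl N (fn F.vb x)) (g := fn (F.v n - F.vb))
      (c := C * (F.K ^ (pm N - 1) + F.K ^ (pm N - 1))) (by positivity)
      (((continuous_dnl hN hN5).comp_aestronglyMeasurable (fn_meas _).restrict).sub
        ((continuous_dnl hN hN5).comp_aestronglyMeasurable (fn_meas _).restrict))
      (Mq_univ58 _ hS2.1) (aeR' (by
        filter_upwards [v_bd F n, vb_bd hN F, fn_sub hN hvn hvb] with x h1 h2 h3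
        rw [h3]
        refine (hC1 _ _).trans ?_
        gcongr))
    have f3 := nq_add hq1 f1.1 f2.1
    have e0 : (fun x => an x - ab x) = fun x => (fun _ => F.lam n - F.lamb) x +
        (fun x => dnl N (fn (F.v n) x) - dnl N (fn F.vb x)) x := by
      funext x
      simp only [han, hab]
      ring
    rw [e0]
    refine f3.2.trans (add_le_add f1.2 (f2.2.trans ?_))
    gcongr
    exact (nq_mono_set58 _ hS2.1).trans hS2.2
  have hd4 : ‖Kop F.e F.ρ an - Kop F.e F.ρ ab‖ ≤ m₁ / 2 := by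
    rw [← hd1]
    refine hd2.trans ((mul_le_mul_of_nonneg_left hd3 (by positivity)).trans (hn₀ n hn).le)
  have h1 := hm₁' x
  have h2 : x - Kop F.e F.ρ ab x = (x - Kop F.e F.ρ an x)
      + (Kop F.e F.ρ an - Kop F.e F.ρ ab) x := by
    rw [_root_.sub_apply]; abel
  have h3 := norm_add_le (x - Kop F.e F.ρ an x) ((Kop F.e F.ρ an - Kop F.e F.ρ ab) x)
  have h4 := (Kop F.e F.ρ an - Kop F.e F.ρ ab).le_opNorm x
  rw [h2] at h1
  nlinarith [norm_nonneg x]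

theorem Mq_bub (hN : 3 ≤ N) : ∃ C : ℝ, 0 < C ∧ ∀ (μ : ℝ) (ξ : E N) (Ω : Set (E N)), 0 < μ →
    Mq (N / 2) Ω (fun x => bub N μ ξ x ^ pm N) ∧
      nq (N / 2) Ω (fun x => bub N μ ξ x ^ pm N) ≤ C := by
  have h3 : (3 : ℝ) ≤ N := by exact_mod_cast hN
  have hs := sN_pos hN
  refine ⟨sN N ^ (1 / ((N : ℝ) / 2)), by positivity, fun μ ξ Ω hμ => ?_⟩
  have h1 := int_bub_ts hN hμ ξ
  have he : ∀ x, (bub N μ ξ x ^ pm N) ^ ((N : ℝ) / 2) = bub N μ ξ x ^ ts N := fun x => by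
    rw [← Real.rpow_mul (bub_pos hN hμ ξ x).le]
    congr 1
    unfold pm ts
    have : (N : ℝ) - 2 ≠ 0 := by linarith
    field_simp
    ring
  have hnq := BI.nq_of_int (q := (N : ℝ) / 2) (Ω := univ) (by linarith)
    (BI.bub_rpow_cont hN hμ ξ (pm N))
    (fun x => (Real.rpow_pos_of_pos (bub_pos hN hμ ξ x) _).le) (by
      simp_rw [he]; exact h1.1.integrableOn)
  refine ⟨Mq_univ58 _ hnq.1, (nq_mono_set58 _ hnq.1).trans ?_⟩
  rw [hnq.2, setIntegral_univ]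
  simp_rw [he]
  rw [h1.2]

theorem K1_norm (hN : 3 ≤ N) (hN5 : N ≤ 5) {ρ : ℝ} (hρ : 0 < ρ) (hρ1 : ρ < 1) :
    ∃ C : ℝ, 0 < C ∧ ∀ (e : E N) (d μ : ℝ), ‖e‖ = 1 → 0 < μ →
      Mq (N / 2) (ann N ρ) (fun x => dnl N (bub N μ (cen e d) x)) ∧
      ‖Kop e ρ (fun x => dnl N (bub N μ (cen e d) x))‖ ≤ C := by
  obtain ⟨C, hC, hC1⟩ := Mq_bub hN
  have hpm : 0 < pm N := BI.pm_pos hN
  have hSS := @SS_pos N
  refine ⟨SS N ^ 2 * ((pm N + 1) * C), by positivity, fun e d μ he hμ => ?_⟩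
  obtain ⟨h1, h2⟩ := hC1 μ (cen e d) (ann N ρ) hμ
  have h3 := nq_le_mul (q := (N : ℝ) / 2) (c := pm N + 1) (by linarith)
    (meas_dbub hN hN5 hμ (cen e d) (ann N ρ)) h1 (Eventually.of_forall fun x => by
      rw [BI.dnl_bub hN hμ, abs_mul, abs_of_pos (by linarith : 0 < pm N + 1)])
  refine ⟨h3.1, (Kop_norm hN hρ hρ1 he h3.1 (axial_dbub hN hN5 he ρ μ d)).trans ?_⟩
  gcongr
  exact h3.2.trans (by gcongr)

theorem three_le_ts (hN : 3 ≤ N) (hN5 : N ≤ 5) : (3 : ℝ) ≤ ts N := by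
  have h3 : (3 : ℝ) ≤ N := by exact_mod_cast hN
  have h5 : (N : ℝ) ≤ 5 := by exact_mod_cast hN5
  unfold ts
  rw [le_div_iff₀ (by linarith)]
  linarith

theorem one_le_td (hN : 3 ≤ N) : (1 : ℝ) ≤ td N := by
  have h3 : (3 : ℝ) ≤ N := by exact_mod_cast hN
  unfold td
  rw [le_div_iff₀ (by linarith)]
  linarith

/-- `K₁ K₀` is small -/
theorem K1K0 (hN : 3 ≤ N) (hN5 : N ≤ 5) {ρ : ℝ} (hρ : 0 < ρ) (hρ1 : ρ < 1) (B : ℝ) (hB : 0 < B) :
    ∃ C : ℝ, 0 < C ∧ ∀ (e : E N) (d μ : ℝ) (a : E N → ℝ), ‖e‖ = 1 → 0 < μ →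
      AEStronglyMeasurable a (volume.restrict (ann N ρ)) → (∀ᵐ x, |a x| ≤ B) →
      Axial e ((ann N ρ).indicator a) →
      ‖(Kop e ρ (fun x => dnl N (bub N μ (cen e d) x))).comp (Kop e ρ a)‖ ≤ C * μ ^ cc N := by
  obtain ⟨S, hS, hS1⟩ := exists_sob_q hN 1 (by norm_num) (three_le_ts hN hN5)
  obtain ⟨Cs, hCs, hCs1⟩ := exists_sup hN hN5 1
  obtain ⟨Cb, hCb, hCb1⟩ := nq_bub_pm hN hN5
  obtain ⟨Cv, hCv, hCv1⟩ := nq_bdd N ρ (N / 2)
  obtain ⟨_, _, hK1⟩ := K1_norm hN hN5 hρ hρ1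
  have hpm : 0 < pm N := BI.pm_pos hN
  have hSS := @SS_pos N
  refine ⟨SS N * ((pm N + 1) * (Cs * (B * S)) * Cb), by positivity,
    fun e d μ a he hμ hm ha hA => ?_⟩
  have hμc : 0 < μ ^ cc N := Real.rpow_pos_of_pos hμ _
  refine ContinuousLinearMap.opNorm_le_bound _ (by positivity) fun w => ?_
  have hMa := (hCv1 a B hB.le hm (aeR' ha)).1
  set y := Kop e ρ a w with hy
  have hy1 : (y : LV N) = T (ann N ρ) (fun x => a x * fn (w : LV N) x) :=
    Kop_apply hN hρ hρ1 he hMa hA w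
  have hMtd : Mq (td N) (ann N ρ) (fun x => a x * fn (w : LV N) x) :=
    (holder_pot hN hMa (Mq_univ58 _ (sobolev hN (XS_univ hN w.2)).1)).1
  have hwk : Weak (ann N ρ) (y : LV N) (fun x => a x * fn (w : LV N) x) := by
    rw [hy1]; exact T_weak hN (annM ρ) hMtd
  obtain ⟨hw3, hw3'⟩ := hS1 _ (XS_ball hN w.2)
  have h3 := nq_le_mul (q := 3) (c := B) hB.le (hm.mul (fn_meas (w : LV N)).restrict)
    (Mq_univ58 (ann N ρ) hw3) (aeR' (by
      filter_upwards [ha] with x hx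
      rw [Pi.mul_apply, abs_mul]
      gcongr))
  have h4 : ∀ᵐ x, |fn (y : LV N) x| ≤ Cs * (B * (S * ‖w‖)) := by
    filter_upwards [hCs1 (ann N ρ) (annO ρ) (annB ρ) y _ h3.1 hwk] with x hx
    refine hx.trans ?_
    gcongr
    refine h3.2.trans ?_
    gcongr
    exact (nq_mono_set58 _ hw3).trans hw3'
  have hK1' := hK1 e d μ he hμ
  have h5 : (Kop e ρ (fun x => dnl N (bub N μ (cen e d) x)) y : LV N)
      = T (ann N ρ) (fun x => dnl N (bub N μ (cen e d) x) * fn (y : LV N) x) :=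
    Kop_apply hN hρ hρ1 he hK1'.1 (axial_dbub hN hN5 he ρ μ d) y
  obtain ⟨hb1, hb2⟩ := hCb1 μ (cen e d) hμ
  have h6 := nq_le_mul (q := td N) (Ω := ann N ρ)
    (f := fun x => dnl N (bub N μ (cen e d) x) * fn (y : LV N) x)
    (c := (pm N + 1) * (Cs * (B * (S * ‖w‖)))) (by positivity)
    ((meas_dbub hN hN5 hμ (cen e d) (ann N ρ)).mul (fn_meas _).restrict)
    (Mq_univ58 _ hb1) (aeR' (by
      filter_upwards [h4] with x hx
      rw [BI.dnl_bub hN hμ, abs_mul, abs_mul, abs_of_pos (by linarith : 0 < pm N + 1)]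
      calc (pm N + 1) * |bub N μ (cen e d) x ^ pm N| * |fn (y : LV N) x|
          ≤ (pm N + 1) * |bub N μ (cen e d) x ^ pm N| * (Cs * (B * (S * ‖w‖))) := by gcongr
        _ = _ := by ring))
  change ‖Kop e ρ (fun x => dnl N (bub N μ (cen e d) x)) y‖ ≤ _
  rw [← Submodule.norm_coe, h5]
  refine (T_norm hN (annM ρ) h6.1).trans ?_
  have h7 : nq (td N) (ann N ρ) (fun x => bub N μ (cen e d) x ^ pm N) ≤ Cb * μ ^ cc N :=
    (nq_mono_set58 _ hb1).trans hb2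
  calc SS N * nq (td N) (ann N ρ) (fun x => dnl N (bub N μ (cen e d) x) * fn (y : LV N) x)
      ≤ SS N * ((pm N + 1) * (Cs * (B * (S * ‖w‖))) * (Cb * μ ^ cc N)) := by
        gcongr
        exact h6.2.trans (by gcongr)
    _ = _ := by ring

/-- the gap on `XS` -/
theorem int_whole (hN : 3 ≤ N) {ρ : ℝ} {w : LV N} (hw : w ∈ DD (ann N ρ)) (g : E N → ℝ) :
    ∫ x in ann N ρ, g x * fn w x = ∫ x, g x * fn w x := by
  refine setIntegral_eq_integral_of_ae_compl_eq_zero ?_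
  filter_upwards [fn_zero_off hN hw] with x hx hm
  rw [hx hm, mul_zero]

theorem Mq_dnl_mul (hN : 3 ≤ N) (hN5 : N ≤ 5) {μ : ℝ} (hμ : 0 < μ) (ξ : E N) {f : E N → ℝ}
    {c : ℝ} (hc : 0 ≤ c) (hm : AEStronglyMeasurable f volume)
    (hf : ∀ x, |f x| ≤ c * bub N μ ξ x) (Ω : Set (E N)) :
    Mq (td N) Ω (fun x => dnl N (bub N μ ξ x) * f x) := by
  have hpm : 0 < pm N := BI.pm_pos hN
  refine (nq_le_mul (q := td N) (g := fun x => nl N (bub N μ ξ x)) (c := c * (pm N + 1))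
    (by positivity) ((meas_dbub hN hN5 hμ ξ Ω).mul hm.restrict)
    (Mq_univ58 _ (Mq_nl_bub hN hμ ξ).1) (Eventually.of_forall fun x => ?_)).1
  have hb := bub_pos hN hμ ξ x
  have h1 : 0 ≤ dnl N (bub N μ ξ x) := by
    rw [BI.dnl_bub hN hμ]; positivity
  have h2 : 0 ≤ nl N (bub N μ ξ x) := by
    unfold nl; positivity
  rw [Pi.mul_apply, abs_mul, abs_of_nonneg h1, abs_of_nonneg h2]
  calc dnl N (bub N μ ξ x) * |f x| ≤ dnl N (bub N μ ξ x) * (c * bub N μ ξ x) := by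
        gcongr; exact hf x
    _ = c * (dnl N (bub N μ ξ x) * bub N μ ξ x) := by ring
    _ = c * (pm N + 1) * nl N (bub N μ ξ x) := by rw [dnl_mul_self hN]; ring

theorem Mq_Mu (hN : 3 ≤ N) (hN5 : N ≤ 5) {μ : ℝ} (hμ : 0 < μ) (ξ : E N) (Ω : Set (E N)) :
    Mq (td N) Ω (fun x => dnl N (bub N μ ξ x) * bubMu N μ ξ x) :=
  Mq_dnl_mul hN hN5 hμ ξ (BI.cc_pos hN).le (BI.bubMu_cont hN hμ ξ).aestronglyMeasurable
    (fun x => bubMu_le hN hμ ξ x) Ω

theorem Mq_Xi (hN : 3 ≤ N) (hN5 : N ≤ 5) {e : E N} (he : ‖e‖ = 1) {μ : ℝ} (hμ : 0 < μ) (ξ : E N)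
    (Ω : Set (E N)) : Mq (td N) Ω (fun x => dnl N (bub N μ ξ x) * bubXi N e μ ξ x) :=
  Mq_dnl_mul hN hN5 hμ ξ (BI.cc_pos hN).le (BI.bubXi_cont hN e hμ ξ).aestronglyMeasurable
    (fun x => bubXi_le hN he hμ ξ x) Ω

theorem pair_zero (hN : 3 ≤ N) {ρ : ℝ} {e : E N} {g : E N → ℝ} (hg : Mq (td N) (ann N ρ) g)
    (x Z : XS e ρ) (hZ : (Z : LV N) = T (ann N ρ) g) (h : ⟪x, Z⟫ = 0) :
    ∫ y, g y * fn (x : LV N) y = 0 := by
  have h1 := (weak_pair hN (annM ρ) hg (T_weak hN (annM ρ) hg) (XS_DD hN x.2)).2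
  rw [int_whole hN (XS_DD hN x.2)] at h1
  rw [← h1, ← hZ, ← h, real_inner_comm]
  rfl

theorem K1_gap (hN : 3 ≤ N) (hN5 : N ≤ 5) {ρ : ℝ} (hρ : 0 < ρ) (hρ1 : ρ < 1) {e : E N}
    (he : ‖e‖ = 1) {d μ : ℝ} (hμ : 0 < μ) (x W Z0 Z1 : XS e ρ) (hW : (W : LV N) = WW e ρ d μ)
    (hZ0 : (Z0 : LV N) = ZX e ρ d μ) (hZ1 : (Z1 : LV N) = ZM e ρ d μ) (h0 : ⟪x, W⟫ = 0)
    (h1 : ⟪x, Z0⟫ = 0) (h2 : ⟪x, Z1⟫ = 0) :
    ⟪Kop e ρ (fun x => dnl N (bub N μ (cen e d) x)) x, x⟫ ≤ (N : ℝ) / (N + 4) * ‖x‖ ^ 2 := by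
  obtain ⟨_, _, hK1⟩ := K1_norm hN hN5 hρ hρ1
  have hg := gap hN he hμ (1 - d) (XS_univ hN x.2) ((mem_XS hN).1 x.2).2
    (pair_zero hN (Mq_univ58 _ (Mq_nl_bub hN hμ _).1) x W hW h0)
    (pair_zero hN (Mq_Mu hN hN5 hμ _ _) x Z1 hZ1 h2)
    (pair_zero hN (Mq_Xi hN hN5 he hμ _ _) x Z0 hZ0 h1)
  rw [Kop_inner hN hρ hρ1 he (hK1 e d μ he hμ).1 (axial_dbub hN hN5 he ρ μ d)]
  have h3 := int_whole hN (XS_DD hN x.2)
    (fun y => dnl N (bub N μ (cen e d) y) * fn (x : LV N) y)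
  have h4 : ∫ y in ann N ρ, dnl N (bub N μ (cen e d) y) * (fn (x : LV N) y * fn (x : LV N) y)
      = ∫ y, dnl N (bub N μ (cen e d) y) * fn (x : LV N) y ^ 2 := by
    have e1 : (fun y => dnl N (bub N μ (cen e d) y) * (fn (x : LV N) y * fn (x : LV N) y))
        = fun y => dnl N (bub N μ (cen e d) y) * fn (x : LV N) y * fn (x : LV N) y := by
      funext y; ring
    have e2 : (fun y => dnl N (bub N μ (cen e d) y) * fn (x : LV N) y ^ 2)
        = fun y => dnl N (bub N μ (cen e d) y) * fn (x : LV N) y * fn (x : LV N) y := by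
      funext y; ring
    rw [e1, e2]; exact h3
  rw [h4]
  exact hg

theorem one_le_half (hN : 3 ≤ N) : (1 : ℝ) ≤ (N : ℝ) / 2 := by
  have : (3 : ℝ) ≤ N := by exact_mod_cast hN
  linarith

theorem pm1_nonneg (hN : 3 ≤ N) (hN5 : N ≤ 5) : 0 ≤ pm N - 1 := by
  unfold pm
  have h3 : (3 : ℝ) ≤ N := by exact_mod_cast hN
  have h5 : (N : ℝ) ≤ 5 := by exact_mod_cast hN5
  rw [sub_nonneg, le_div_iff₀ (by linarith)]
  linarith

/-- `K₂` is small -/
theorem K2_norm (hN : 3 ≤ N) (hN5 : N ≤ 5) {η : ℝ} (F : Fam N η) :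
    ∃ C d₁ : ℝ, 0 < C ∧ 0 < d₁ ∧ F.ρ < 1 - d₁ ∧ ∀ (n : ℕ) (d μ β : ℝ), 0 < d → d < d₁ →
      0 < μ → μ ≤ d ^ 2 → (β = 1 ∨ β = -1) → ∀ u : XS F.e F.ρ,
      (u : LV N) = F.v n + β • WW F.e F.ρ d μ →
      ‖Kop F.e F.ρ (fun x => F.lam n + dnl N (fn (u : LV N) x))
        - Kop F.e F.ρ (fun x => F.lam n + dnl N (fn (F.v n) x))
        - Kop F.e F.ρ (fun x => dnl N (bub N μ (cen F.e d) x))‖ ≤ C * μ ^ ((1 : ℝ) / 4) := by
  obtain ⟨C₁, d₁, hC₁, hd₁, hρd₁, h1⟩ := proj_est hN hN5 F.hρ F.hρ1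
  obtain ⟨C₂, d₂, hC₂, hd₂, hρd₂, h2⟩ := proj_small_of hN hN5 F.hρ1 (proj_est hN hN5 F.hρ F.hρ1)
  obtain ⟨Cd, hCd, hCd1⟩ := dnl_split hN hN5
  obtain ⟨B, hB, hBn, _⟩ := exists_B hN F
  obtain ⟨Cv, hCv, hCv1⟩ := nq_bdd N F.ρ (N / 2)
  obtain ⟨_, _, hK1⟩ := K1_norm hN hN5 F.hρ F.hρ1
  have hpm : 0 < pm N := BI.pm_pos hN
  have hpm1 := pm1_nonneg hN hN5
  have hSS := @SS_pos N
  have hK := F.hK
  have hKp : 0 ≤ F.K ^ (pm N - 1) := Real.rpow_nonneg hK.le _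
  refine ⟨SS N ^ 2 * (Cd * F.K ^ (pm N - 1) * C₂ + Cd * F.K * C₂ + C₂), min d₁ d₂,
    by positivity, lt_min hd₁ hd₂, ?_, ?_⟩
  · rcases min_choice d₁ d₂ with h | h <;> rw [h] <;> assumption
  intro n d μ β hd hdd hμ hμd hβ u hu
  have e1 := h1 F.e d μ F.he hd (hdd.trans_le (min_le_left _ _)) hμ hμd
  have e2 := h2 F.e d μ F.he hd (hdd.trans_le (min_le_right _ _)) hμ hμd
  obtain ⟨-, -, -, hq1, hq2, hq3, -⟩ := e2
  set W := WW F.e F.ρ d μ with hW
  set ξ := cen F.e d with hξ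
  have hWX : W ∈ XS F.e F.ρ := (proj_axial hN F.hρ F.hρ1 F.he hμ).1
  -- pointwise facts on the annulus
  have hp : ∀ᵐ x ∂(volume.restrict (ann N F.ρ)), 0 ≤ fn W x ∧ fn W x ≤ bub N μ ξ x ∧
      bub N μ ξ x ≤ alN N * μ ^ (-cc N) ∧ |fn (F.v n) x| ≤ F.K ∧
      fn (u : LV N) x = fn (F.v n) x + β * fn W x := by
    have f1 := aeR' (Ω := ann N F.ρ) (v_bd F n)
    have f2 := aeR' (Ω := ann N F.ρ) (fn_add hN (XS_univ hN (F.v_mem n))
      (Submodule.smul_mem _ β (XS_univ hN hWX)))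
    have f3 := aeR' (Ω := ann N F.ρ) (fn_smul hN β (XS_univ hN hWX))
    filter_upwards [aeR e1, f1, f2, f3] with x g1 g2 g3 g4
    refine ⟨g1.1, g1.2.1, bub_le2 hN hμ ξ x, g2, ?_⟩
    rw [hu, g3, g4]
  set M := alN N * μ ^ (-cc N) with hM
  have hM0 : 0 ≤ M := by
    have := BI.alN_pos hN
    have := Real.rpow_nonneg hμ.le (-cc N)
    positivity
  have hβ1 : |β| = 1 := by rcases hβ with h | h <;> rw [h] <;> norm_num
  -- the potentials
  have hmu := meas_ab hN hN5 (u : LV N) (F.lam n) (ann N F.ρ)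
  have hmn := meas_ab hN hN5 (F.v n) (F.lam n) (ann N F.ρ)
  have hmb := meas_dbub hN hN5 hμ ξ (ann N F.ρ)
  have hAu := axial_ab hN hN5 u.2 (F.lam n)
  have hAn := axial_ab hN hN5 (F.v_mem n) (F.lam n)
  have hAb := axial_dbub hN hN5 F.he F.ρ μ d
  have hMn := (hCv1 _ B hB.le hmn (aeR' (hBn n))).1
  have hMb := (hK1 F.e d μ F.he hμ).1
  have hMu : Mq (N / 2) (ann N F.ρ) (fun x => F.lam n + dnl N (fn (u : LV N) x)) := by
    refine (hCv1 _ (|F.lam n| + (pm N + 1) * (F.K + M) ^ pm N) (by positivity) hmu ?_).1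
    filter_upwards [hp] with x ⟨g1, g2, g3, g4, g5⟩
    refine (abs_add_le _ _).trans ?_
    gcongr
    refine dnl_bd hN (by positivity) ?_
    rw [g5]
    refine (abs_add_le _ _).trans ?_
    rw [abs_mul, hβ1, one_mul, abs_of_nonneg g1]
    linarith
  have hA1 : Axial F.e ((ann N F.ρ).indicator (fun x => (F.lam n + dnl N (fn (u : LV N) x))
      - (F.lam n + dnl N (fn (F.v n) x)))) := by
    have h := axial_comp hAu hAn (k := fun p => p.1 - p.2) (measurable_fst.sub measurable_snd)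
    rw [← indicator_sub] at h
    exact h
  have hA2 : Axial F.e ((ann N F.ρ).indicator (fun x => ((F.lam n + dnl N (fn (u : LV N) x))
      - (F.lam n + dnl N (fn (F.v n) x))) - dnl N (bub N μ ξ x))) := by
    have h := axial_comp hA1 hAb (k := fun p => p.1 - p.2) (measurable_fst.sub measurable_snd)
    rw [← indicator_sub] at h
    exact h
  have hM1 : Mq (N / 2) (ann N F.ρ) (fun x => (F.lam n + dnl N (fn (u : LV N) x))
      - (F.lam n + dnl N (fn (F.v n) x))) := hMu.sub hMn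
  have hM2 : Mq (N / 2) (ann N F.ρ) (fun x => ((F.lam n + dnl N (fn (u : LV N) x))
      - (F.lam n + dnl N (fn (F.v n) x))) - dnl N (bub N μ ξ x)) := hM1.sub hMb
  rw [← Kop_sub hN F.hρ F.hρ1 F.he hMu hAu hMn hAn, ← Kop_sub hN F.hρ F.hρ1 F.he hM1 hA1 hMb hAb]
  refine (Kop_norm hN F.hρ F.hρ1 F.he hM2 hA2).trans ?_
  -- the three parts
  have hmW : AEStronglyMeasurable (fn W) (volume.restrict (ann N F.ρ)) := (fn_meas W).restrict
  have hG1 := (hCv1 (fn W) M hM0 hmW (by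
    filter_upwards [hp] with x ⟨g1, g2, g3, g4, g5⟩
    rw [abs_of_nonneg g1]; linarith)).1
  have hmW2 : AEStronglyMeasurable (fun x => fn W x ^ (pm N - 1))
      (volume.restrict (ann N F.ρ)) := (hmW.aemeasurable.pow_const _).aestronglyMeasurable
  have hG2 := (hCv1 (fun x => fn W x ^ (pm N - 1)) (M ^ (pm N - 1)) (by positivity) hmW2 (by
    filter_upwards [hp] with x ⟨g1, g2, g3, g4, g5⟩
    rw [abs_of_nonneg (Real.rpow_nonneg g1 _)]
    exact Real.rpow_le_rpow g1 (by linarith) hpm1)).1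
  have hmW3 : AEStronglyMeasurable (fun x => dnl N (bub N μ ξ x) - dnl N (fn W x))
      (volume.restrict (ann N F.ρ)) :=
    hmb.sub ((continuous_dnl hN hN5).comp_aestronglyMeasurable hmW)
  have hG3 := (hCv1 (fun x => dnl N (bub N μ ξ x) - dnl N (fn W x))
    ((pm N + 1) * M ^ pm N + (pm N + 1) * M ^ pm N) (by positivity) hmW3 (by
    filter_upwards [hp] with x ⟨g1, g2, g3, g4, g5⟩
    refine (abs_sub _ _).trans ?_
    gcongr
    · exact dnl_bd hN hM0 (by rw [abs_of_nonneg (g1.trans g2)]; exact g3)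
    · exact dnl_bd hN hM0 (by rw [abs_of_nonneg g1]; linarith))).1
  have hq := one_le_half hN
  have t1 := nq_le_mul (q := (N : ℝ) / 2) (Ω := ann N F.ρ)
    (f := fun x => Cd * F.K ^ (pm N - 1) * fn W x) (g := fn W) (c := Cd * F.K ^ (pm N - 1))
    (by positivity) (hmW.const_mul _) hG1 (Eventually.of_forall fun x => by
      rw [abs_mul, abs_of_nonneg (by positivity : 0 ≤ Cd * F.K ^ (pm N - 1))])
  have t2 := nq_le_mul (q := (N : ℝ) / 2) (Ω := ann N F.ρ)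
    (f := fun x => Cd * F.K * fn W x ^ (pm N - 1)) (g := fun x => fn W x ^ (pm N - 1))
    (c := Cd * F.K) (by positivity) (hmW2.const_mul _) hG2 (Eventually.of_forall fun x => by
      rw [abs_mul, abs_of_nonneg (by positivity : 0 ≤ Cd * F.K)])
  have t3 := nq_le_mul (q := (N : ℝ) / 2) (Ω := ann N F.ρ)
    (f := fun x => |dnl N (bub N μ ξ x) - dnl N (fn W x)|)
    (g := fun x => dnl N (bub N μ ξ x) - dnl N (fn W x)) (c := 1) zero_le_one
    (by simpa [Real.norm_eq_abs] using hmW3.norm) hG3 (Eventually.of_forall fun x => by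
      rw [abs_abs, one_mul])
  have t12 := nq_add hq t1.1 t2.1
  have t123 := nq_add hq t12.1 t3.1
  have tf := nq_le_mul (q := (N : ℝ) / 2) (Ω := ann N F.ρ)
    (f := fun x => ((F.lam n + dnl N (fn (u : LV N) x))
      - (F.lam n + dnl N (fn (F.v n) x))) - dnl N (bub N μ ξ x))
    (c := 1) zero_le_one ((hmu.sub hmn).sub hmb) t123.1 (by
      filter_upwards [hp] with x ⟨g1, g2, g3, g4, g5⟩
      have k1 := hCd1 (fn (F.v n) x) (β * fn W x)
      have k2 : dnl N (β * fn W x) = dnl N (fn W x) := by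
        rcases hβ with h | h
        · rw [h, one_mul]
        · rw [h, neg_one_mul, dnl_neg]
      have k3 : |β * fn W x| = fn W x := by rw [abs_mul, hβ1, one_mul, abs_of_nonneg g1]
      rw [k2, k3] at k1
      have k4 : |fn (F.v n) x| ^ (pm N - 1) ≤ F.K ^ (pm N - 1) :=
        Real.rpow_le_rpow (abs_nonneg _) g4 hpm1
      have k5 : 0 ≤ fn W x ^ (pm N - 1) := Real.rpow_nonneg g1 _
      have k6 : Cd * (|fn (F.v n) x| ^ (pm N - 1) * fn W x + |fn (F.v n) x| * fn W x ^ (pm N - 1))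
          ≤ Cd * F.K ^ (pm N - 1) * fn W x + Cd * F.K * fn W x ^ (pm N - 1) := by
        have k7 : |fn (F.v n) x| ^ (pm N - 1) * fn W x ≤ F.K ^ (pm N - 1) * fn W x := by gcongr
        have k8 : |fn (F.v n) x| * fn W x ^ (pm N - 1) ≤ F.K * fn W x ^ (pm N - 1) := by gcongr
        nlinarith
      have k9 : ((F.lam n + dnl N (fn (u : LV N) x)) - (F.lam n + dnl N (fn (F.v n) x)))
          - dnl N (bub N μ ξ x) = (dnl N (fn (F.v n) x + β * fn W x) - dnl N (fn (F.v n) x)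
            - dnl N (fn W x)) - (dnl N (bub N μ ξ x) - dnl N (fn W x)) := by
        rw [g5]; ring
      simp only [one_mul]
      rw [k9]
      refine (abs_sub _ _).trans ?_
      refine (add_le_add (k1.trans k6) le_rfl).trans (le_abs_self _))
  have hfin : nq (N / 2) (ann N F.ρ) (fun x => ((F.lam n + dnl N (fn (u : LV N) x))
      - (F.lam n + dnl N (fn (F.v n) x))) - dnl N (bub N μ ξ x))
      ≤ (Cd * F.K ^ (pm N - 1) * C₂ + Cd * F.K * C₂ + C₂) * μ ^ ((1 : ℝ) / 4) := by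
    have s1 := tf.2
    have s2 := t123.2
    have s3 := t12.2
    have s4 : Cd * F.K ^ (pm N - 1) * nq (N / 2) (ann N F.ρ) (fn W)
        ≤ Cd * F.K ^ (pm N - 1) * (C₂ * μ ^ ((1 : ℝ) / 4)) := by gcongr
    have s5 : Cd * F.K * nq (N / 2) (ann N F.ρ) (fun x => fn W x ^ (pm N - 1))
        ≤ Cd * F.K * (C₂ * μ ^ ((1 : ℝ) / 4)) := by gcongr
    have s6 := t1.2
    have s7 := t2.2
    have s8 := t3.2
    rw [one_mul] at s1 s8
    linarith
  calc SS N ^ 2 * nq (N / 2) (ann N F.ρ) (fun x => ((F.lam n + dnl N (fn (u : LV N) x))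
      - (F.lam n + dnl N (fn (F.v n) x))) - dnl N (bub N μ ξ x))
      ≤ SS N ^ 2 * ((Cd * F.K ^ (pm N - 1) * C₂ + Cd * F.K * C₂ + C₂) * μ ^ ((1 : ℝ) / 4)) := by
        gcongr
    _ = _ := by ring

theorem td_le_ts (hN : 3 ≤ N) : td N ≤ ts N := by
  have h3 : (3 : ℝ) ≤ N := by exact_mod_cast hN
  unfold td ts
  rw [div_le_div_iff₀ (by linarith) (by linarith)]
  nlinarith

theorem Mq_td (hN : 3 ≤ N) {ρ : ℝ} {e : E N} {w : LV N} (hw : w ∈ XS e ρ) :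
    Mq (td N) (ann N ρ) (fn w) :=
  Mq_mono (annB ρ) (BI.td_pos hN) (td_le_ts hN) (Mq_univ58 _ (sobolev hN (XS_univ hN hw)).1)

theorem K0Z (hN : 3 ≤ N) {ρ : ℝ} (hρ : 0 < ρ) (hρ1 : ρ < 1) {e : E N} (he : ‖e‖ = 1)
    {B : ℝ} (hB : 0 < B) {a : E N → ℝ} (hm : AEStronglyMeasurable a (volume.restrict (ann N ρ)))
    (ha : ∀ᵐ x, |a x| ≤ B) (hA : Axial e ((ann N ρ).indicator a)) (Z : XS e ρ) :
    ‖Kop e ρ a Z‖ ≤ SS N * (B * nq (td N) (ann N ρ) (fn (Z : LV N))) := by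
  obtain ⟨Cv, hCv, hCv1⟩ := nq_bdd N ρ (N / 2)
  have hMa := (hCv1 a B hB.le hm (aeR' ha)).1
  have hSS := @SS_pos N
  rw [← Submodule.norm_coe, Kop_apply hN hρ hρ1 he hMa hA Z]
  have h3 := nq_le_mul (q := td N) (c := B) hB.le (hm.mul (fn_meas (Z : LV N)).restrict)
    (Mq_td hN Z.2) (aeR' (by
      filter_upwards [ha] with x hx
      rw [Pi.mul_apply, abs_mul]
      gcongr))
  refine (T_norm hN (annM ρ) h3.1).trans ?_
  gcongr
  exact h3.2

theorem ZK1Z (hN : 3 ≤ N) (hN5 : N ≤ 5) {ρ : ℝ} (hρ : 0 < ρ) (hρ1 : ρ < 1) {e : E N}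
    (he : ‖e‖ = 1) {d μ : ℝ} (hμ : 0 < μ) {f : E N → ℝ}
    (hf : Mq (td N) (ann N ρ) (fun x => dnl N (bub N μ (cen e d) x) * f x)) (Z : XS e ρ)
    (hZ : (Z : LV N) = T (ann N ρ) (fun x => dnl N (bub N μ (cen e d) x) * f x)) :
    ‖Z - Kop e ρ (fun x => dnl N (bub N μ (cen e d) x)) Z‖ ≤ SS N *
      nq (td N) (ann N ρ) (fun x => dnl N (bub N μ (cen e d) x) * (f x - fn (Z : LV N) x)) := by
  obtain ⟨_, _, hK1⟩ := K1_norm hN hN5 hρ hρ1
  have hMa := (hK1 e d μ he hμ).1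
  have hg : Mq (td N) (ann N ρ)
      (fun x => dnl N (bub N μ (cen e d) x) * fn (Z : LV N) x) :=
    (holder_pot hN hMa (Mq_univ58 _ (sobolev hN (XS_univ hN Z.2)).1)).1
  have h1 := Kop_apply hN hρ hρ1 he hMa (axial_dbub hN hN5 he ρ μ d) Z
  have h2 : ((Z - Kop e ρ (fun x => dnl N (bub N μ (cen e d) x)) Z : XS e ρ) : LV N)
      = T (ann N ρ) (fun x => dnl N (bub N μ (cen e d) x) * (f x - fn (Z : LV N) x)) := by
    rw [Submodule.coe_sub, h1]
    conv_lhs => rw [hZ]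
    rw [← T_sub hN (annM ρ) hf (by rw [← hZ]; exact hg)]
    congr 1
    funext x
    rw [← hZ]
    ring
  rw [← Submodule.norm_coe, h2]
  refine T_norm hN (annM ρ) ?_
  have h3 := hf.sub hg
  refine (memLp_congr_ae (Eventually.of_forall fun x => ?_)).1 h3
  simp only [Pi.sub_apply]
  ring

theorem dnl_mul_sub_le (hN : 3 ≤ N) {u w : ℝ} (hw : 0 ≤ w) (hwu : w ≤ u) :
    0 ≤ nl N u - nl N w ∧ |dnl N u * (w - u)| ≤ (pm N + 1) * (nl N u - nl N w) := by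
  have hpm : 0 < pm N := BI.pm_pos hN
  have hu := hw.trans hwu
  unfold nl dnl
  rw [abs_of_nonneg hu, abs_of_nonneg hw, abs_mul, abs_mul, abs_of_pos (by linarith : 0 < pm N + 1),
    abs_of_nonneg (Real.rpow_nonneg hu _), abs_of_nonpos (by linarith : w - u ≤ 0)]
  have h1 : w ^ pm N ≤ u ^ pm N := Real.rpow_le_rpow hw hwu hpm.le
  have h2 : 0 ≤ w ^ pm N := Real.rpow_nonneg hw _
  have h3 : w ^ pm N * w ≤ u ^ pm N * w := by gcongr
  have h4 : u ^ pm N * w ≤ u ^ pm N * u := by gcongr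
  refine ⟨by linarith, ?_⟩
  rw [mul_assoc]
  refine mul_le_mul_of_nonneg_left ?_ (by linarith)
  linarith

theorem K1W (hN : 3 ≤ N) (hN5 : N ≤ 5) {ρ : ℝ} (hρ : 0 < ρ) (hρ1 : ρ < 1) {e : E N}
    (he : ‖e‖ = 1) {d μ : ℝ} (hμ : 0 < μ)
    (hp : ∀ᵐ x ∂(volume.restrict (ann N ρ)), 0 ≤ fn (WW e ρ d μ) x ∧
      fn (WW e ρ d μ) x ≤ bub N μ (cen e d) x) (W : XS e ρ) (hW : (W : LV N) = WW e ρ d μ) :
    ‖Kop e ρ (fun x => dnl N (bub N μ (cen e d) x)) W - (pm N + 1) • W‖ ≤ SS N * ((pm N + 1) *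
      nq (td N) (ann N ρ) (fun x => nl N (bub N μ (cen e d) x) - nl N (fn (WW e ρ d μ) x))) := by
  obtain ⟨_, _, hK1⟩ := K1_norm hN hN5 hρ hρ1
  have hpm : 0 < pm N := BI.pm_pos hN
  have hSS := @SS_pos N
  have hMa := (hK1 e d μ he hμ).1
  have hg : Mq (td N) (ann N ρ)
      (fun x => dnl N (bub N μ (cen e d) x) * fn (W : LV N) x) :=
    (holder_pot hN hMa (Mq_univ58 _ (sobolev hN (XS_univ hN W.2)).1)).1
  have hb : Mq (td N) (ann N ρ) (fun x => nl N (bub N μ (cen e d) x)) :=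
    Mq_univ58 _ (Mq_nl_bub hN hμ _).1
  have hbm : AEStronglyMeasurable (fun x => nl N (fn (WW e ρ d μ) x))
      (volume.restrict (ann N ρ)) := by
    have hc : Continuous (nl N) :=
      continuous_iff_continuousAt.2 fun u => (hasDerivAt_nl hN hN5 u).continuousAt
    exact hc.comp_aestronglyMeasurable (fn_meas _).restrict
  have hw : Mq (td N) (ann N ρ) (fun x => nl N (fn (WW e ρ d μ) x)) :=
    (nq_le_mul (q := td N) (c := 1) zero_le_one hbm hb (by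
      filter_upwards [hp] with x ⟨h1, h2⟩
      rw [one_mul]
      have h3 := (dnl_mul_sub_le hN h1 h2).1
      have h4 : 0 ≤ nl N (fn (WW e ρ d μ) x) := by unfold nl; positivity
      rw [abs_of_nonneg h4]
      exact (by linarith : nl N (fn (WW e ρ d μ) x) ≤ nl N (bub N μ (cen e d) x)).trans
        (le_abs_self _))).1
  have h1 := Kop_apply hN hρ hρ1 he hMa (axial_dbub hN hN5 he ρ μ d) W
  have h2 : ((Kop e ρ (fun x => dnl N (bub N μ (cen e d) x)) W - (pm N + 1) • W : XS e ρ) : LV N)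
      = T (ann N ρ) (fun x => dnl N (bub N μ (cen e d) x) * fn (W : LV N) x
        - (pm N + 1) * nl N (bub N μ (cen e d) x)) := by
    rw [Submodule.coe_sub, h1, Submodule.coe_smul, T_sub hN (annM ρ) hg (hb.const_mul _),
      T_smul hN (annM ρ) _ hb]
    congr 2
  have h3 := nq_le_mul (q := td N) (Ω := ann N ρ)
    (f := fun x => dnl N (bub N μ (cen e d) x) * fn (W : LV N) x
        - (pm N + 1) * nl N (bub N μ (cen e d) x))
    (g := fun x => nl N (bub N μ (cen e d) x) - nl N (fn (WW e ρ d μ) x)) (c := pm N + 1)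
    (by linarith) (hg.sub (hb.const_mul (pm N + 1))).1 (hb.sub hw) (by
      filter_upwards [hp] with x ⟨h1, h2⟩
      have h3 := dnl_mul_sub_le hN h1 h2
      rw [abs_of_nonneg h3.1, hW, ← dnl_mul_self hN, ← mul_sub]
      exact h3.2)
  rw [← Submodule.norm_coe, h2]
  refine (T_norm hN (annM ρ) h3.1).trans ?_
  gcongr
  exact h3.2

end LV90

open LV90 in
theorem lin_bound (hN : 3 ≤ N) (hN5 : N ≤ 5) {η : ℝ} (F : Fam N η) :
    ∃ m d₁ : ℝ, ∃ n₀ : ℕ, 0 < m ∧ 0 < d₁ ∧ F.ρ < 1 - d₁ ∧ ∀ (n : ℕ) (d μ β : ℝ), n₀ ≤ n → 0 < d →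
      d < d₁ → 0 < μ → μ ≤ d ^ 2 → (β = 1 ∨ β = -1) →
      ∀ (u W Z0 Z1 : XS F.e F.ρ), (W : LV N) = WW F.e F.ρ d μ → (Z0 : LV N) = ZX F.e F.ρ d μ →
        (Z1 : LV N) = ZM F.e F.ρ d μ → (u : LV N) = F.v n + β • WW F.e F.ρ d μ →
        ∀ (x : XS F.e F.ρ) (c0 c1 : ℝ), m * (‖x‖ + |c0| + |c1|) ≤
          ‖Hess F.e F.ρ (F.lam n) u x - c0 • Z0 - c1 • Z1‖ + |⟪Z0, x⟫| + |⟪Z1, x⟫| := by
  have hcs := complete_XS F.e F.ρ
  obtain ⟨B, hB, hBn, _⟩ := exists_B hN F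
  obtain ⟨m₀, n₀, hm₀, hnd⟩ := nondeg_unif hN hN5 F
  obtain ⟨Cv, hCv, hCv1⟩ := nq_bdd N F.ρ (N / 2)
  obtain ⟨CK, hCK, hK1⟩ := K1_norm hN hN5 F.hρ F.hρ1
  obtain ⟨CC, hCC, hCC1⟩ := K1K0 hN hN5 F.hρ F.hρ1 B hB
  obtain ⟨C₂, d₂, hC₂, hd₂, hρd₂, hK2⟩ := K2_norm hN hN5 F
  obtain ⟨Cp, dp, hCp, hdp, hρdp, hps⟩ := proj_small_of hN hN5 F.hρ1 (proj_est hN hN5 F.hρ F.hρ1)
  obtain ⟨Ce, de, hCe, hde, hρde, hpe⟩ := proj_est hN hN5 F.hρ F.hρ1
  have hpm : 0 < pm N := BI.pm_pos hN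
  have hSS := @SS_pos N
  set M := Cp + SS N ^ 2 * (Cv * B) + CK + 1 with hM
  have hMp : 0 < M := by positivity
  have hp : 1 < pm N + 1 := by linarith
  have h3 : (3 : ℝ) ≤ N := by exact_mod_cast hN
  have hκ : (N : ℝ) / (N + 4) < 1 := by
    rw [div_lt_one (by linarith)]; linarith
  obtain ⟨δ, m, hδ, hm, hlin⟩ := lin_abstract hp hκ hMp hm₀
  set Ct := CC + C₂ + SS N * (B * Cp) + SS N * Cp + SS N * ((pm N + 1) * Cp) + Cp with hCt
  have hCtp : 0 < Ct := by positivity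
  refine ⟨m, min (min d₂ dp) (min de (min 1 ((δ / Ct) ^ 4))), n₀, hm, ?_, ?_, ?_⟩
  · positivity
  · have : min (min d₂ dp) (min de (min 1 ((δ / Ct) ^ 4))) ≤ d₂ :=
      (min_le_left _ _).trans (min_le_left _ _)
    linarith
  intro n d μ β hn hd hdd hμ hμd hβ u W Z0 Z1 hW hZ0 hZ1 hu x c0 c1
  simp only [lt_min_iff] at hdd
  obtain ⟨⟨hdd2, hddp⟩, hdde, hdd1, hddδ⟩ := hdd
  -- smallness
  have hμ1 : μ ≤ 1 := by nlinarith
  set t := μ ^ ((1 : ℝ) / 4) with ht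
  have ht0 : 0 < t := Real.rpow_pos_of_pos hμ _
  have hcct : μ ^ cc N ≤ t := by
    refine Real.rpow_le_rpow_of_exponent_ge hμ hμ1 ?_
    unfold cc
    linarith
  have htδ : Ct * t ≤ δ := by
    have h5 : μ ≤ (δ / Ct) ^ 4 := by nlinarith
    have h6 : t ≤ δ / Ct := by
      calc t ≤ ((δ / Ct) ^ 4) ^ ((1 : ℝ) / 4) := Real.rpow_le_rpow hμ.le h5 (by norm_num)
        _ = δ / Ct := by
          rw [← Real.rpow_natCast, ← Real.rpow_mul (by positivity)]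
          norm_num
    calc Ct * t ≤ Ct * (δ / Ct) := by gcongr
      _ = δ := by field_simp
  have small : ∀ {a : ℝ}, 0 ≤ a → a ≤ Ct → a * t ≤ δ := fun {a} _ h =>
    (mul_le_mul_of_nonneg_right h ht0.le).trans htδ
  have e1 := hpe F.e d μ F.he hd hdde hμ hμd
  obtain ⟨-, -, q3, -, -, -, -, q8, q9, q10, q11, -, n1, n2, n3, n4, n5, n6, i1, i2, i3⟩ :=
    hps F.e d μ F.he hd hddp hμ hμd
  have hpw : ∀ᵐ x ∂(volume.restrict (ann N F.ρ)), 0 ≤ fn (WW F.e F.ρ d μ) x ∧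
      fn (WW F.e F.ρ d μ) x ≤ bub N μ (cen F.e d) x := by
    filter_upwards [aeR e1] with x g1
    exact ⟨g1.1, g1.2.1⟩
  have hmn := meas_ab hN hN5 (F.v n) (F.lam n) (ann N F.ρ)
  have hAn := axial_ab hN hN5 (F.v_mem n) (F.lam n)
  have hAb := axial_dbub hN hN5 F.he F.ρ μ d
  have hMn := hCv1 _ B hB.le hmn (aeR' (hBn n))
  have hMb := hK1 F.e d μ F.he hμ
  have hcoe : ∀ y : XS F.e F.ρ, ‖y‖ = ‖(y : LV N)‖ := fun y => rfl
  have hMinv : M⁻¹ ≤ Cp⁻¹ := by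
    refine inv_anti₀ hCp ?_
    rw [hM]
    have : 0 ≤ SS N ^ 2 * (Cv * B) := by positivity
    linarith
  have hCpM : Cp ≤ M := by
    rw [hM]
    have : 0 ≤ SS N ^ 2 * (Cv * B) := by positivity
    linarith
  have key := hlin (XS F.e F.ρ) (Kop F.e F.ρ (fun x => F.lam n + dnl N (fn (F.v n) x)))
    (Kop F.e F.ρ (fun x => dnl N (bub N μ (cen F.e d) x)))
    (Kop F.e F.ρ (fun x => F.lam n + dnl N (fn (u : LV N) x))
        - Kop F.e F.ρ (fun x => F.lam n + dnl N (fn (F.v n) x))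
        - Kop F.e F.ρ (fun x => dnl N (bub N μ (cen F.e d) x))) W ![Z0, Z1]
    (fun x y => Kop_symm hN F.hρ F.hρ1 F.he hMn.1 hAn x y)
    (fun x y => Kop_symm hN F.hρ F.hρ1 F.he hMb.1 hAb x y)
    (by
      refine (Kop_norm hN F.hρ F.hρ1 F.he hMn.1 hAn).trans ?_
      calc SS N ^ 2 * nq (N / 2) (ann N F.ρ) (fun x => F.lam n + dnl N (fn (F.v n) x))
          ≤ SS N ^ 2 * (Cv * B) := by gcongr; exact hMn.2
        _ ≤ M := by rw [hM]; linarith)
    (hMb.2.trans (by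
      rw [hM]
      have : 0 ≤ SS N ^ 2 * (Cv * B) := by positivity
      linarith))
    ((hK2 n d μ β hd hdd2 hμ hμd hβ u hu).trans (small hC₂.le (by
      rw [hCt]
      have a1 : 0 ≤ SS N * (B * Cp) := by positivity
      have a2 : 0 ≤ SS N * Cp := by positivity
      have a3 : 0 ≤ SS N * ((pm N + 1) * Cp) := by positivity
      linarith)))
    ((hCC1 F.e d μ _ F.he hμ hmn (hBn n) hAn).trans
      ((mul_le_mul_of_nonneg_left hcct hCC.le).trans (small hCC.le (by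
        rw [hCt]
        have a1 : 0 ≤ SS N * (B * Cp) := by positivity
        have a2 : 0 ≤ SS N * Cp := by positivity
        have a3 : 0 ≤ SS N * ((pm N + 1) * Cp) := by positivity
        linarith))))
    (fun x => hnd n hn x)
    (by rw [hcoe, hW]; exact n1.trans hCpM)
    (by
      intro a
      fin_cases a
      · change ‖Z0‖ ≤ M
        rw [hcoe, hZ0]; exact n3.trans hCpM
      · change ‖Z1‖ ≤ M
        rw [hcoe, hZ1]; exact n2.trans hCpM)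
    (by rw [hcoe, hW]; exact hMinv.trans n4)
    (by
      have a1 : SS N * (B * Cp) ≤ Ct := by
        rw [hCt]
        have a2 : 0 ≤ SS N * Cp := by positivity
        have a3 : 0 ≤ SS N * ((pm N + 1) * Cp) := by positivity
        linarith
      have a4 : ∀ Z : XS F.e F.ρ, nq (td N) (ann N F.ρ) (fn (Z : LV N)) ≤ Cp * μ ^ cc N →
          ‖Kop F.e F.ρ (fun x => F.lam n + dnl N (fn (F.v n) x)) Z‖ ≤ δ := fun Z hZ => by
        refine (K0Z hN F.hρ F.hρ1 F.he hB hmn (hBn n) hAn Z).trans ?_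
        calc SS N * (B * nq (td N) (ann N F.ρ) (fn (Z : LV N)))
            ≤ SS N * (B * (Cp * t)) := by
              gcongr
              exact hZ.trans (by gcongr)
          _ = SS N * (B * Cp) * t := by ring
          _ ≤ δ := small (by positivity) a1
      intro a
      fin_cases a
      · exact a4 Z0 (by rw [hZ0]; exact q9)
      · exact a4 Z1 (by rw [hZ1]; exact q8))
    (by
      have a1 : SS N * Cp ≤ Ct := by
        rw [hCt]
        have a2 : 0 ≤ SS N * (B * Cp) := by positivity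
        have a3 : 0 ≤ SS N * ((pm N + 1) * Cp) := by positivity
        linarith
      have a5 : ∀ q : ℝ, q ≤ Cp * μ ^ cc N → SS N * q ≤ δ := fun q hq => by
        calc SS N * q ≤ SS N * (Cp * t) := by
              gcongr
              exact hq.trans (by gcongr)
          _ = SS N * Cp * t := by ring
          _ ≤ δ := small (by positivity) a1
      intro a
      fin_cases a
      · refine (ZK1Z hN hN5 F.hρ F.hρ1 F.he hμ (Mq_Xi hN hN5 F.he hμ _ _) Z0 hZ0).trans (a5 _ ?_)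
        rw [hZ0]; exact q11
      · refine (ZK1Z hN hN5 F.hρ F.hρ1 F.he hμ (Mq_Mu hN hN5 hμ _ _) Z1 hZ1).trans (a5 _ ?_)
        rw [hZ1]; exact q10)
    (by
      refine (K1W hN hN5 F.hρ F.hρ1 F.he hμ hpw W hW).trans ?_
      calc SS N * ((pm N + 1) * nq (td N) (ann N F.ρ) (fun x => nl N (bub N μ (cen F.e d) x)
            - nl N (fn (WW F.e F.ρ d μ) x)))
          ≤ SS N * ((pm N + 1) * (Cp * t)) := by
            gcongr
            exact q3.trans (by gcongr)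
        _ = SS N * ((pm N + 1) * Cp) * t := by ring
        _ ≤ δ := small (by positivity) (by
            rw [hCt]
            have a2 : 0 ≤ SS N * (B * Cp) := by positivity
            have a3 : 0 ≤ SS N * Cp := by positivity
            linarith))
    (by
      have a1 : Cp ≤ Ct := by
        rw [hCt]
        have a2 : 0 ≤ SS N * (B * Cp) := by positivity
        have a3 : 0 ≤ SS N * Cp := by positivity
        have a4 : 0 ≤ SS N * ((pm N + 1) * Cp) := by positivity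
        linarith
      intro a
      fin_cases a
      · change |⟪(Z0 : LV N), (W : LV N)⟫| ≤ δ
        rw [hZ0, hW]
        exact i3.trans (small hCp.le a1)
      · change |⟪(Z1 : LV N), (W : LV N)⟫| ≤ δ
        rw [hZ1, hW]
        exact i2.trans (small hCp.le a1))
    (by
      have a1 : Cp ≤ Ct := by
        rw [hCt]
        have a2 : 0 ≤ SS N * (B * Cp) := by positivity
        have a3 : 0 ≤ SS N * Cp := by positivity
        have a4 : 0 ≤ SS N * ((pm N + 1) * Cp) := by positivity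
        linarith
      change |⟪(Z0 : LV N), (Z1 : LV N)⟫| ≤ δ
      rw [hZ0, hZ1, real_inner_comm]
      exact i1.trans (small hCp.le a1))
    (by
      intro a
      fin_cases a
      · change M⁻¹ ≤ ‖Z0‖
        rw [hcoe, hZ0]; exact hMinv.trans n6
      · change M⁻¹ ≤ ‖Z1‖
        rw [hcoe, hZ1]; exact hMinv.trans n5)
    (fun x hx hz => K1_gap hN hN5 F.hρ F.hρ1 F.he hμ x W Z0 Z1 hW hZ0 hZ1 hx (hz 0) (hz 1))
    x ![c0, c1]
  simp only [Fin.sum_univ_two, Matrix.cons_val_zero, Matrix.cons_val_one] at key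
  have hH : Hess F.e F.ρ (F.lam n) u x - c0 • Z0 - c1 • Z1
      = x - Kop F.e F.ρ (fun x => F.lam n + dnl N (fn (F.v n) x)) x
        - Kop F.e F.ρ (fun x => dnl N (bub N μ (cen F.e d) x)) x
        - (Kop F.e F.ρ (fun x => F.lam n + dnl N (fn (u : LV N) x))
          - Kop F.e F.ρ (fun x => F.lam n + dnl N (fn (F.v n) x))
          - Kop F.e F.ρ (fun x => dnl N (bub N μ (cen F.e d) x))) x - (c0 • Z0 + c1 • Z1) := by
    unfold Hess
    simp only [_root_.sub_apply, ContinuousLinearMap.id_apply]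
    abel
  rw [hH, add_assoc ‖x‖, add_assoc ‖_‖]
  exact key

end Pool.Agent.helper13.BN
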